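import Pool.Agent.Lib.P64ccd3.Main
import Pool.Agent.Lib.P64ccd3.Uniform

set_option autoImplicit false

open Complex MeasureTheory Set Filter Topology Metric

namespace Pool.Agent.Results.MP_64ccd3_an.LocallyUniform

open Pool.Agent.Lib.P64ccd3

/-- a point of the open disc in the intersection of two balls centred on the circle -/
private lemma exists_inner {p q : ℂ} (hp : ‖p‖ = 1) (hq : ‖q‖ = 1) (hpq : p ≠ q) {r s : ℝ}
    (hr : 0 < r) (hs : 0 < s) (h : dist p q < r + s) :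
    ∃ z, z ∈ ball p r ∧ z ∈ ball q s ∧ ‖z‖ < 1 := by
  have hrs : 0 < r + s := by linarith
  have hL : dist p q = ‖q - p‖ := by rw [dist_comm, dist_eq_norm]
  refine ⟨(s / (r + s)) • p + (r / (r + s)) • q, ?_, ?_, ?_⟩
  · rw [mem_ball, dist_eq_norm]
    have e1 : (s / (r + s)) • p + (r / (r + s)) • q - p = (r / (r + s)) • (q - p) := by
      have : (s / (r + s)) = 1 - r / (r + s) := by field_simp; ring
      rw [this, sub_smul, one_smul, smul_sub]
      ring
    rw [e1, norm_smul, Real.norm_eq_abs, abs_of_pos (by positivity), ← hL]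
    calc r / (r + s) * dist p q < r / (r + s) * (r + s) := by
          apply mul_lt_mul_of_pos_left h (by positivity)
      _ = r := by field_simp
  · rw [mem_ball, dist_eq_norm]
    have e1 : (s / (r + s)) • p + (r / (r + s)) • q - q = (s / (r + s)) • (p - q) := by
      have : (r / (r + s)) = 1 - s / (r + s) := by field_simp; ring
      rw [this, sub_smul, one_smul, smul_sub]
      ring
    rw [e1, norm_smul, Real.norm_eq_abs, abs_of_pos (by positivity), ← dist_eq_norm]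
    calc s / (r + s) * dist p q < s / (r + s) * (r + s) := by
          apply mul_lt_mul_of_pos_left h (by positivity)
      _ = s := by field_simp
  · apply norm_combo_lt_of_ne hp.le hq.le hpq (by positivity) (by positivity)
    field_simp
    ring

/-- Two local continuations agree on the intersection of their balls. -/
private lemma agree {f : ℂ → ℂ} {p q : ℂ} (hp : ‖p‖ = 1) (hq : ‖q‖ = 1) {r s : ℝ}
    (hr : 0 < r) (hs : 0 < s) {g h : ℂ → ℂ}
    (hg : DifferentiableOn ℂ g (ball p r)) (hh : DifferentiableOn ℂ h (ball q s))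
    (hgf : ∀ w ∈ ball p r, ‖w‖ < 1 → g w = f w) (hhf : ∀ w ∈ ball q s, ‖w‖ < 1 → h w = f w)
    (hpq : p ≠ q) {w : ℂ} (hw1 : w ∈ ball p r) (hw2 : w ∈ ball q s) : g w = h w := by
  have hd : dist p q < r + s := by
    have := dist_triangle_right p q w
    rw [mem_ball, dist_comm] at hw1 hw2
    linarith
  obtain ⟨z, hz1, hz2, hz3⟩ := exists_inner hp hq hpq hr hs hd
  have hU : IsPreconnected (ball p r ∩ ball q s) :=
    ((convex_ball p r).inter (convex_ball q s)).isPreconnected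
  have hg' : AnalyticOnNhd ℂ g (ball p r ∩ ball q s) :=
    (hg.analyticOnNhd isOpen_ball).mono inter_subset_left
  have hh' : AnalyticOnNhd ℂ h (ball p r ∩ ball q s) :=
    (hh.analyticOnNhd isOpen_ball).mono inter_subset_right
  have hev : g =ᶠ[𝓝 z] h := by
    have h1 : ball p r ∈ 𝓝 z := isOpen_ball.mem_nhds hz1
    have h2 : ball q s ∈ 𝓝 z := isOpen_ball.mem_nhds hz2
    have h3 : ball (0 : ℂ) 1 ∈ 𝓝 z := isOpen_ball.mem_nhds (by simpa using hz3)
    filter_upwards [h1, h2, h3] with y y1 y2 y3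
    have y4 : ‖y‖ < 1 := by simpa using y3
    rw [hgf y y1 y4, hhf y y2 y4]
  exact hg'.eqOn_of_preconnected_of_eventuallyEq hh' hU ⟨hz1, hz2⟩ hev ⟨hw1, hw2⟩

private lemma ps_diff_radius {a : ℕ → ℂ} (hrad : (FormalMultilinearSeries.ofScalars ℂ a).radius = 1) :
    HasFPowerSeriesOnBall (ps a) (FormalMultilinearSeries.ofScalars ℂ a) 0 1 := by
  have h1 : HasFPowerSeriesOnBall (FormalMultilinearSeries.ofScalars ℂ a).sum
      (FormalMultilinearSeries.ofScalars ℂ a) 0 (FormalMultilinearSeries.ofScalars ℂ a).radius :=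
    FormalMultilinearSeries.hasFPowerSeriesOnBall _ (by rw [hrad]; exact one_pos)
  rw [hrad] at h1
  have h2 : (FormalMultilinearSeries.ofScalars ℂ a).sum = ps a := by
    funext z
    unfold FormalMultilinearSeries.sum ps
    apply tsum_congr
    intro n
    rw [FormalMultilinearSeries.ofScalars_apply_eq]
    simp
  rwa [h2] at h1

theorem result (a : ℕ → ℂ) (E : Set ℂ)
    (hrad : (FormalMultilinearSeries.ofScalars ℂ a).radius = 1)
    (hE : E = {ξ : ℂ | ‖ξ‖ = 1 ∧ ¬ ∃ r : ℝ, 0 < r ∧ ∃ g : ℂ → ℂ,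
      DifferentiableOn ℂ g (ball 0 1 ∪ ball ξ r) ∧ ∀ w ∈ ball (0 : ℂ) 1, g w = ∑' n, a n * w ^ n})
    (hH : ∃ M : ℝ, ∀ ξ ∈ E, ∀ N : ℕ, ‖∑ n ∈ Finset.range (N + 1), a n * ξ ^ n‖ ≤ M) :
    ∃ (Ω : Set ℂ) (F : ℂ → ℂ), IsOpen Ω ∧ ball 0 1 ∪ (sphere 0 1 \ E) ⊆ Ω ∧
      DifferentiableOn ℂ F Ω ∧ (∀ w ∈ ball (0 : ℂ) 1, F w = ∑' n, a n * w ^ n) ∧
      TendstoLocallyUniformlyOn (fun (N : ℕ) z => ∑ n ∈ Finset.range N, a n * z ^ n) F atTop
        (sphere 0 1 \ E) := by
  classical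
  have hfps := ps_diff_radius hrad
  have hball : Metric.eball (0 : ℂ) 1 = ball 0 1 := by
    have := Metric.eball_ofReal (x := (0 : ℂ)) (ε := 1)
    simpa using this
  have hfd : DifferentiableOn ℂ (ps a) (ball 0 1) := by
    have := hfps.differentiableOn
    rwa [hball] at this
  -- local continuations
  have hreg : ∀ ζ : ℂ, ‖ζ‖ = 1 → ζ ∉ E → ∃ r : ℝ, 0 < r ∧ ∃ g : ℂ → ℂ,
      DifferentiableOn ℂ g (ball ζ r) ∧ ∀ w ∈ ball ζ r, ‖w‖ < 1 → g w = ps a w := by
    intro ζ h1 h2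
    by_contra h3
    apply h2
    rw [hE]
    refine ⟨h1, ?_⟩
    rintro ⟨r, hr, g, hg1, hg2⟩
    exact h3 ⟨r, hr, g, hg1.mono subset_union_right, fun w _ hw => hg2 w (by simpa using hw)⟩
  choose! rr hrr gg hgg1 hgg2 using hreg
  have hagree : ∀ ζ η : ℂ, ‖ζ‖ = 1 → ζ ∉ E → ‖η‖ = 1 → η ∉ E → ∀ w ∈ ball ζ (rr ζ),
      w ∈ ball η (rr η) → gg ζ w = gg η w := by
    intro ζ η h1 h2 h3 h4 w hw1 hw2
    by_cases hζη : ζ = η
    · rw [hζη]
    · exact agree h1 h3 (hrr ζ h1 h2) (hrr η h3 h4) (hgg1 ζ h1 h2) (hgg1 η h3 h4)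
        (hgg2 ζ h1 h2) (hgg2 η h3 h4) hζη hw1 hw2
  set Ω : Set ℂ := ball 0 1 ∪ ⋃ ζ ∈ (sphere (0 : ℂ) 1 \ E), ball ζ (rr ζ) with hΩ
  set F : ℂ → ℂ := fun w => if ‖w‖ < 1 then ps a w else
    if h : ∃ ζ, (‖ζ‖ = 1 ∧ ζ ∉ E) ∧ w ∈ ball ζ (rr ζ) then gg h.choose w else 0 with hF
  have hFin : ∀ w, ‖w‖ < 1 → F w = ps a w := by
    intro w hw
    simp only [hF]
    rw [if_pos hw]
  have hFball : ∀ ζ, ‖ζ‖ = 1 → ζ ∉ E → ∀ w ∈ ball ζ (rr ζ), F w = gg ζ w := by
    intro ζ h1 h2 w hw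
    by_cases hw1 : ‖w‖ < 1
    · rw [hFin w hw1, hgg2 ζ h1 h2 w hw hw1]
    · have hex : ∃ ζ, (‖ζ‖ = 1 ∧ ζ ∉ E) ∧ w ∈ ball ζ (rr ζ) := ⟨ζ, ⟨h1, h2⟩, hw⟩
      simp only [hF]
      rw [if_neg hw1, dif_pos hex]
      exact hagree _ _ hex.choose_spec.1.1 hex.choose_spec.1.2 h1 h2 w hex.choose_spec.2 hw
  have hΩo : IsOpen Ω := by
    rw [hΩ]
    apply isOpen_ball.union
    exact isOpen_biUnion fun _ _ => isOpen_ball
  have hΩs : ball 0 1 ∪ (sphere 0 1 \ E) ⊆ Ω := by
    apply union_subset subset_union_left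
    intro ζ hζ
    right
    have h1 : ‖ζ‖ = 1 := by simpa using hζ.1
    simp only [mem_iUnion]
    exact ⟨ζ, hζ, mem_ball_self (hrr ζ h1 hζ.2)⟩
  have hFd : DifferentiableOn ℂ F Ω := by
    intro w hw
    apply DifferentiableAt.differentiableWithinAt
    rcases hw with hw | hw
    · have h1 : ps a =ᶠ[𝓝 w] F := by
        filter_upwards [isOpen_ball.mem_nhds hw] with y hy
        exact (hFin y (by simpa using hy)).symm
      exact ((hfd w hw).differentiableAt (isOpen_ball.mem_nhds hw)).congr_of_eventuallyEq h1.symm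
    · simp only [mem_iUnion] at hw
      obtain ⟨ζ, hζ, hwζ⟩ := hw
      have h1 : ‖ζ‖ = 1 := by simpa using hζ.1
      have h2 : F =ᶠ[𝓝 w] gg ζ := by
        filter_upwards [isOpen_ball.mem_nhds hwζ] with y hy
        exact hFball ζ h1 hζ.2 y hy
      exact ((hgg1 ζ h1 hζ.2 w hwζ).differentiableAt
        (isOpen_ball.mem_nhds hwζ)).congr_of_eventuallyEq h2
  -- the singular set is nonempty
  have hne : E.Nonempty := by
    by_contra hemp
    rw [not_nonempty_iff_eq_empty] at hemp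
    have hsub : closedBall (0 : ℂ) 1 ⊆ Ω := by
      intro w hw
      have hw1 : ‖w‖ ≤ 1 := by simpa using hw
      apply hΩs
      rcases hw1.lt_or_eq with h | h
      · left; simpa using h
      · right
        rw [hemp]
        simpa using h
    obtain ⟨δ, hδ, hδs⟩ := (isCompact_closedBall (0 : ℂ) 1).exists_cthickening_subset_open hΩo hsub
    rw [cthickening_closedBall hδ.le zero_le_one] at hδs
    have hR : 0 < δ + 1 := by linarith
    obtain ⟨R, hRδ⟩ : ∃ R : NNReal, (R : ℝ) = δ + 1 := ⟨⟨δ + 1, hR.le⟩, rfl⟩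
    have hps2 : HasFPowerSeriesOnBall F (cauchyPowerSeries F 0 (R : ℝ)) 0 (R : ENNReal) := by
      apply DifferentiableOn.hasFPowerSeriesOnBall
      · rw [hRδ]
        exact hFd.mono hδs
      · rw [← NNReal.coe_pos, hRδ]
        exact hR
    have hps3 : HasFPowerSeriesAt F (FormalMultilinearSeries.ofScalars ℂ a) 0 := by
      have h1 : HasFPowerSeriesAt (ps a) (FormalMultilinearSeries.ofScalars ℂ a) 0 :=
        hfps.hasFPowerSeriesAt
      apply h1.congr
      filter_upwards [isOpen_ball.mem_nhds (mem_ball_self (x := (0 : ℂ)) one_pos)] with y hy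
      exact (hFin y (by simpa using hy)).symm
    have heq := hps3.eq_formalMultilinearSeries hps2.hasFPowerSeriesAt
    have hrle := hps2.r_le
    rw [← heq, hrad] at hrle
    have h1 : (R : ENNReal) ≤ ((1 : NNReal) : ENNReal) := by
      simpa using hrle
    rw [ENNReal.coe_le_coe] at h1
    have h2 : (R : ℝ) ≤ 1 := by exact_mod_cast h1
    linarith
  -- the coefficients tend to zero
  obtain ⟨M, hM⟩ := hH
  obtain ⟨α, hα⟩ : ∃ α : ℝ, exp ((α : ℂ) * I) ∈ E := by
    obtain ⟨ξ, hξ⟩ := hne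
    refine ⟨ξ.arg, ?_⟩
    have h1 : ‖ξ‖ = 1 := by rw [hE] at hξ; exact hξ.1
    have := Complex.norm_mul_exp_arg_mul_I ξ
    rw [h1] at this
    simp only [ofReal_one, one_mul] at this
    rwa [this]
  have hM0 : 0 ≤ M := (norm_nonneg _).trans (hM _ hα 0)
  set P : Set ℝ := {x : ℝ | exp ((x : ℂ) * I) ∈ E} with hPdef
  have hnorm1 : ∀ p : ℝ, ‖exp ((p : ℂ) * I)‖ = 1 := by
    intro p; rw [norm_exp_mul_I']; simp
  have hEout : ∀ ζ, ‖ζ‖ = 1 → ζ ∉ E → ∀ η, ‖η‖ = 1 → η ∈ ball ζ (rr ζ) → η ∉ E := by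
    intro ζ h1 h2 η h3 h4 h5
    rw [hE] at h5
    apply h5.2
    obtain ⟨d, hd, hd2⟩ := Metric.isOpen_iff.mp isOpen_ball η h4
    refine ⟨d, hd, F, hFd.mono ?_, fun w hw => hFin w (by simpa using hw)⟩
    apply union_subset (subset_union_left.trans hΩs)
    intro w hw
    right
    simp only [mem_iUnion]
    exact ⟨ζ, ⟨by simpa using h1, h2⟩, hd2 hw⟩
  have hP : IsClosed P := by
    rw [← isOpen_compl_iff, Metric.isOpen_iff]
    intro x hx
    have hcont : ContinuousAt (fun y : ℝ => exp ((y : ℂ) * I)) x := by fun_prop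
    obtain ⟨d, hd, hd2⟩ := Metric.continuousAt_iff.mp hcont _ (hrr _ (hnorm1 x) hx)
    refine ⟨d, hd, ?_⟩
    intro y hy
    exact hEout _ (hnorm1 x) hx _ (hnorm1 y) (hd2 hy)
  have hβ : α + 2 * Real.pi ∈ P := by
    have : exp (((α + 2 * Real.pi : ℝ) : ℂ) * I) = exp ((α : ℂ) * I) := by
      rw [Complex.exp_eq_exp_iff_exists_int]
      exact ⟨1, by push_cast; ring⟩
    change exp (((α + 2 * Real.pi : ℝ) : ℂ) * I) ∈ E
    rw [this]
    exact hα
  have hMP : ∀ p ∈ P, ∀ N, ‖∑ n ∈ Finset.range N, a n * (exp (p * I)) ^ n‖ ≤ M := by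
    intro p hp N
    rcases N with _ | N
    · simpa using hM0
    · exact hM _ hp N
  have hlim : Tendsto a atTop (𝓝 0) := by
    apply tendsto_zero hP (α := α) hα hβ hMP
    intro x _ hx
    have hr := hrr _ (hnorm1 x) hx
    have hg1 := hgg1 _ (hnorm1 x) hx
    have hg2 := hgg2 _ (hnorm1 x) hx
    set r := rr (exp ((x : ℂ) * I)) with hrdef
    set g := gg (exp ((x : ℂ) * I)) with hgdef
    have hsub : Metric.closedBall (exp ((x : ℂ) * I)) (r / 2) ⊆ Metric.ball (exp ((x : ℂ) * I)) r :=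
      Metric.closedBall_subset_ball (by linarith)
    obtain ⟨B, hB⟩ := (isCompact_closedBall (exp ((x : ℂ) * I)) (r / 2)).exists_bound_of_continuousOn
      (hg1.continuousOn.mono hsub)
    have hcont : ContinuousAt (fun w : ℂ => exp (w * I)) (x : ℂ) := by fun_prop
    obtain ⟨d, hd, hd2⟩ := Metric.continuousAt_iff.mp hcont (r / 2) (by linarith)
    refine ⟨d, hd, B, ?_⟩
    intro w hw hw2
    have h1 := hd2 (by rw [dist_eq_norm]; exact hw)
    have h2 : exp (w * I) ∈ Metric.closedBall (exp ((x : ℂ) * I)) (r / 2) :=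
      Metric.mem_closedBall.mpr h1.le
    have h3 := hg2 _ (hsub h2) (norm_exp_lt_one hw2)
    rw [← h3]
    exact hB _ h2
  -- conclusion
  refine ⟨Ω, F, hΩo, hΩs, hFd, fun w hw => hFin w (by simpa using hw), ?_⟩
  rw [Metric.tendstoLocallyUniformlyOn_iff]
  intro ε hε z hz
  have hz1 : ‖z‖ = 1 := by simpa using hz.1
  have hzx : z = exp ((z.arg : ℂ) * I) := by
    have := Complex.norm_mul_exp_arg_mul_I z
    rw [hz1] at this
    simpa using this.symm
  have hr := hrr z hz1 hz.2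
  obtain ⟨δ, hδ, hδ2⟩ := riesz_unif hlim (x0 := z.arg) hr (g := gg z)
    (by rw [← hzx]; exact hgg1 z hz1 hz.2) (by rw [← hzx]; exact hgg2 z hz1 hz.2)
  obtain ⟨N0, hN0⟩ := hδ2 ε hε
  have hz0 : z ≠ 0 := by
    intro h
    rw [h, norm_zero] at hz1
    exact zero_ne_one hz1
  have hargc : ContinuousAt (fun w : ℂ => Complex.arg (w / z)) z := by
    have h1 : ContinuousAt Complex.arg (z / z) := by
      rw [div_self hz0]
      exact Complex.continuousAt_arg (by simp)
    exact ContinuousAt.comp (f := fun w : ℂ => w / z) (g := Complex.arg) h1 (by fun_prop)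
  have hargz : Complex.arg (z / z) = 0 := by rw [div_self hz0]; exact Complex.arg_one
  refine ⟨(sphere 0 1 \ E) ∩ (ball z (rr z) ∩ {w | |Complex.arg (w / z)| < δ}), ?_, ?_⟩
  · apply inter_mem_nhdsWithin
    apply inter_mem (isOpen_ball.mem_nhds (mem_ball_self hr))
    have h2 := hargc.abs
    have h3 : (fun w : ℂ => |Complex.arg (w / z)|) z < δ := by
      simp only [hargz, abs_zero]
      exact hδ
    exact h2.eventually_lt continuousAt_const h3
  · filter_upwards [eventually_ge_atTop N0] with m hm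
    intro y hy
    have hy1 : ‖y‖ = 1 := by simpa using hy.1.1
    have hyd : ‖y / z‖ = 1 := by rw [norm_div, hy1, hz1, div_one]
    have hyx : y = exp (((z.arg + (y / z).arg : ℝ) : ℂ) * I) := by
      have h1 := Complex.norm_mul_exp_arg_mul_I (y / z)
      rw [hyd] at h1
      simp only [ofReal_one, one_mul] at h1
      push_cast
      rw [add_mul, exp_add, h1, ← hzx]
      field_simp
    have h5 := hN0 m hm (z.arg + (y / z).arg) (by
      rw [add_sub_cancel_left]
      exact hy.2.2.le)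
    rw [← hyx] at h5
    rw [hFball z hz1 hz.2 y hy.2.1, dist_comm]
    exact h5

end Pool.Agent.Results.MP_64ccd3_an.LocallyUniform
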